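import Pool.Agent.H66.Kiss.Upper
import Pool.Agent.H66.Kiss.Lower

/-!
# The average kissing number of ball packings in dimension eight

A packing is a finite family of closed balls of positive, possibly different, radii in `ℝ^d`
whose interiors are pairwise disjoint.  We prove that the average degree of the contact graph
of every packing in `ℝ^8` is at most `240`, and that the supremum of the average degrees is
exactly `240`, the kissing number of `ℝ^8`.
-/

set_option autoImplicit false

namespace Pool.Agent.Results.MP_e6e291_co.KappaEight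

open Metric

/-- The balls `B(x, r)` and `B(y, s)` have disjoint interiors. -/
def InteriorDisjoint {d : ℕ} (x : EuclideanSpace ℝ (Fin d)) (r : ℝ)
    (y : EuclideanSpace ℝ (Fin d)) (s : ℝ) : Prop :=
  Disjoint (interior (closedBall x r)) (interior (closedBall y s))

/-- The closed balls `B(x, r)` and `B(y, s)` have a common point. -/
def Touch {d : ℕ} (x : EuclideanSpace ℝ (Fin d)) (r : ℝ)
    (y : EuclideanSpace ℝ (Fin d)) (s : ℝ) : Prop :=
  (closedBall x r ∩ closedBall y s).Nonempty

/-- A packing of `N` closed balls of positive radii in `ℝ^d`, with pairwise disjoint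
interiors. -/
structure Packing (d N : ℕ) where
  /-- the centres -/
  center : Fin N → EuclideanSpace ℝ (Fin d)
  /-- the radii -/
  radius : Fin N → ℝ
  radius_pos : ∀ i, 0 < radius i
  interiors : ∀ i j, i ≠ j → InteriorDisjoint (center i) (radius i) (center j) (radius j)

/-- The contact graph: different balls are adjacent when they are tangent, that is (their
interiors being disjoint) when the closed balls have a common point. -/
def Packing.contactGraph {d N : ℕ} (P : Packing d N) : SimpleGraph (Fin N) where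
  Adj i j := i ≠ j ∧ Touch (P.center i) (P.radius i) (P.center j) (P.radius j)
  symm := ⟨fun i j h => ⟨h.1.symm, by
    have h2 := h.2
    unfold Touch at h2 ⊢
    rwa [Set.inter_comm]⟩⟩
  loopless := ⟨fun i h => h.1 rfl⟩

/-- The average kissing number `2E/N` of a packing. -/
noncomputable def Packing.average {d N : ℕ} (P : Packing d N) : ℝ :=
  2 * (P.contactGraph.edgeSet.ncard : ℝ) / N

/-- The average kissing numbers of the packings of `N ≥ 1` balls in `ℝ^d`. -/
def averages (d : ℕ) : Set ℝ := {a | ∃ (N : ℕ) (P : Packing d N), 1 ≤ N ∧ a = P.average}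

/-- `κ(d)`. -/
noncomputable def kappa (d : ℕ) : ℝ := sSup (averages d)

/-- The numbers `n` such that `n` unit balls with pairwise disjoint interiors can all touch the
unit ball around the origin, with interiors disjoint from its interior. -/
def kissingSizes (d : ℕ) : Set ℕ :=
  {n | ∃ c : Fin n → EuclideanSpace ℝ (Fin d),
    (∀ i, InteriorDisjoint 0 1 (c i) 1 ∧ Touch 0 1 (c i) 1) ∧
    ∀ i j, i ≠ j → InteriorDisjoint (c i) 1 (c j) 1}

/-- `τ(d)`, the kissing number. -/
noncomputable def tau (d : ℕ) : ℕ := sSup (kissingSizes d)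

theorem interiorDisjoint_iff {d : ℕ} {x y : EuclideanSpace ℝ (Fin d)} {r s : ℝ}
    (hr : 0 < r) (hs : 0 < s) : InteriorDisjoint x r y s ↔ r + s ≤ dist x y := by
  rw [InteriorDisjoint, interior_closedBall _ hr.ne', interior_closedBall _ hs.ne',
    disjoint_ball_ball_iff hr hs]

theorem touch_iff {d : ℕ} {x y : EuclideanSpace ℝ (Fin d)} {r s : ℝ}
    (hr : 0 < r) (hs : 0 < s) : Touch x r y s ↔ dist x y ≤ r + s := by
  rw [Touch, ← Set.not_disjoint_iff_nonempty_inter, disjoint_closedBall_closedBall_iff hr.le hs.le,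
    not_lt]

theorem adj_iff {d N : ℕ} (P : Packing d N) (i j : Fin N) :
    P.contactGraph.Adj i j ↔
      i ≠ j ∧ dist (P.center i) (P.center j) = P.radius i + P.radius j := by
  constructor
  · rintro ⟨h1, h2⟩
    refine ⟨h1, le_antisymm ((touch_iff (P.radius_pos i) (P.radius_pos j)).1 h2) ?_⟩
    exact (interiorDisjoint_iff (P.radius_pos i) (P.radius_pos j)).1 (P.interiors i j h1)
  · rintro ⟨h1, h2⟩
    exact ⟨h1, (touch_iff (P.radius_pos i) (P.radius_pos j)).2 h2.le⟩

theorem card_filter_eq {ι : Type} [Fintype ι] (p : ι → Prop) [DecidablePred p] :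
    (Finset.univ.filter p).card = {j | p j}.ncard := by
  rw [← Set.ncard_coe_finset, Finset.coe_filter]
  simp

theorem two_edges {d N : ℕ} (P : Packing d N) :
    2 * P.contactGraph.edgeSet.ncard = ∑ i, {j | i ≠ j ∧
      dist (P.center i) (P.center j) = P.radius i + P.radius j}.ncard := by
  classical
  have h := P.contactGraph.sum_degrees_eq_twice_card_edges
  have e : P.contactGraph.edgeSet.ncard = P.contactGraph.edgeFinset.card := by
    rw [← SimpleGraph.coe_edgeFinset, Set.ncard_coe_finset]
  rw [e, ← h]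
  refine Finset.sum_congr rfl fun i _ => ?_
  rw [← SimpleGraph.card_neighborFinset_eq_degree, ← Set.ncard_coe_finset]
  congr 1
  ext j
  rw [Finset.mem_coe, SimpleGraph.mem_neighborFinset, adj_iff]
  rfl

theorem average_le {N : ℕ} (P : Packing 8 N) (hN : 1 ≤ N) : P.average ≤ 240 := by
  have h := H66.Kiss.main_count P.center P.radius P.radius_pos fun i j hij =>
    (interiorDisjoint_iff (P.radius_pos i) (P.radius_pos j)).1 (P.interiors i j hij)
  simp only [card_filter_eq] at h
  rw [← two_edges P, Fintype.card_fin] at h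
  have hN' : (0 : ℝ) < N := by exact_mod_cast hN
  rw [Packing.average, div_le_iff₀ hN']
  push_cast at h
  exact h

theorem average_large (ε : ℝ) (hε : 0 < ε) :
    ∃ (N : ℕ) (P : Packing 8 N), 1 ≤ N ∧ 240 - ε ≤ P.average := by
  obtain ⟨ι, _, _, p, h1, h2⟩ := H66.Kiss.lower ε hε
  simp only [card_filter_eq] at h2
  have hs : (0 : ℝ) < √2 := Real.sqrt_pos.2 (by norm_num)
  let e : Fin (Fintype.card ι) ≃ ι := (Fintype.equivFin ι).symm
  let P : Packing 8 (Fintype.card ι) :=
    { center := fun i => p (e i)
      radius := fun _ => √2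
      radius_pos := fun _ => hs
      interiors := fun i j hij => (interiorDisjoint_iff hs hs).2
        (h1 _ _ fun h => hij (e.injective h)) }
  have hN : 1 ≤ Fintype.card ι := Fintype.card_pos
  have hN' : (0 : ℝ) < Fintype.card ι := by exact_mod_cast hN
  refine ⟨Fintype.card ι, P, hN, ?_⟩
  rw [Packing.average, le_div_iff₀ hN']
  have h3 := two_edges P
  have h4 : ∑ i, {j | i ≠ j ∧
      dist (P.center i) (P.center j) = P.radius i + P.radius j}.ncard =
      ∑ i, {j | i ≠ j ∧ dist (p i) (p j) = √2 + √2}.ncard := by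
    refine Fintype.sum_equiv e _ _ fun i => ?_
    have h5 : {j | e i ≠ j ∧ dist (p (e i)) (p j) = √2 + √2} = e '' {j | i ≠ j ∧
        dist (P.center i) (P.center j) = P.radius i + P.radius j} := by
      ext j
      constructor
      · rintro ⟨h6, h7⟩
        refine ⟨e.symm j, ⟨?_, ?_⟩, e.apply_symm_apply j⟩
        · intro h8
          exact h6 (by rw [h8, e.apply_symm_apply])
        · simpa only [P, e.apply_symm_apply] using h7
      · rintro ⟨k, ⟨h6, h7⟩, rfl⟩
        exact ⟨fun h8 => h6 (e.injective h8), h7⟩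
    rw [h5, Set.ncard_image_of_injective _ e.injective]
  rw [h4] at h3
  rw [← h3] at h2
  push_cast at h2
  exact h2

theorem lub : IsLUB (averages 8) 240 := by
  constructor
  · rintro a ⟨N, P, hN, rfl⟩
    exact average_le P hN
  · intro b hb
    by_contra hlt
    push Not at hlt
    obtain ⟨N, P, hN, h⟩ := average_large ((240 - b) / 2) (by linarith)
    have h2 := hb ⟨N, P, hN, rfl⟩
    linarith

theorem kissing_upper {n : ℕ} (hn : n ∈ kissingSizes 8) : n ≤ 240 := by
  obtain ⟨c, h1, h2⟩ := hn
  have hnorm : ∀ i, ‖c i‖ = 2 := by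
    intro i
    have h3 := (interiorDisjoint_iff one_pos one_pos).1 (h1 i).1
    have h4 := (touch_iff one_pos one_pos).1 (h1 i).2
    rw [dist_zero_left] at h3 h4
    linarith
  have hv : ∀ i, H66.Kiss.nsq (fun l => ((1 / 2 : ℝ) • c i) l) = 1 := by
    intro i
    rw [H66.Kiss.nsq_eq, norm_smul, hnorm i]
    norm_num
  have hdot : ∀ i j, i ≠ j → H66.Kiss.dot (fun l => ((1 / 2 : ℝ) • c i) l)
      (fun l => ((1 / 2 : ℝ) • c j) l) ≤ 1 / 2 := by
    intro i j hij
    rw [H66.Kiss.dot_eq, real_inner_smul_left, real_inner_smul_right]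
    have h3 := (interiorDisjoint_iff one_pos one_pos).1 (h2 i j hij)
    rw [dist_eq_norm] at h3
    have h4 := norm_sub_sq_real (c i) (c j)
    rw [hnorm i, hnorm j] at h4
    nlinarith
  have h := H66.Kiss.local_ineq (fun _ : Fin n => (0 : ℝ))
    (fun i l => ((1 / 2 : ℝ) • c i) l) hv (fun _ => by norm_num) (fun _ => by norm_num)
    (fun i j hij => by have := hdot i j hij; linarith)
  rw [Finset.sum_const, Finset.card_univ, Fintype.card_fin, nsmul_eq_mul, H66.Kiss.Phi_eq] at h
  have h5 : (n : ℝ) ≤ 240 := by linarith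
  exact_mod_cast h5

theorem kissing_greatest : IsGreatest (kissingSizes 8) 240 := by
  refine ⟨?_, fun n hn => kissing_upper hn⟩
  obtain ⟨c, h1, h2⟩ := H66.Kiss.kiss240
  refine ⟨c, fun i => ⟨?_, ?_⟩, fun i j hij => ?_⟩
  · rw [interiorDisjoint_iff one_pos one_pos, h1 i]; norm_num
  · rw [touch_iff one_pos one_pos, h1 i]; norm_num
  · rw [interiorDisjoint_iff one_pos one_pos]
    linarith [h2 i j hij]

theorem tau_eight : tau 8 = 240 := kissing_greatest.csSup_eq

theorem kappa_eight : kappa 8 = 240 := lub.csSup_eq ⟨_, 1, ⟨fun _ => 0, fun _ => 1,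
  fun _ => one_pos, fun i j hij => absurd (Subsingleton.elim i j) hij⟩, le_rfl, rfl⟩

/-- **The average kissing number of `ℝ^8` is `240`.**  Every packing of `N ≥ 1` balls of
arbitrary positive radii in `ℝ^8` has average kissing number at most `240`, the supremum
`κ(8)` of the average kissing numbers is exactly `240`, and the kissing number `τ(8)` is `240`.
Hence `κ(8) = τ(8)`, and the inequality `κ(d) > τ(d)` does not hold for each of
`d = 4, 8, 24`. -/
theorem result :
    (∀ (N : ℕ) (P : Packing 8 N), 1 ≤ N → P.average ≤ tau 8) ∧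
    IsLUB (averages 8) 240 ∧ kappa 8 = 240 ∧
    IsGreatest (kissingSizes 8) 240 ∧ tau 8 = 240 ∧
    ¬ ∀ d : ℕ, d = 4 ∨ d = 8 ∨ d = 24 → (tau d : ℝ) < kappa d := by
  refine ⟨fun N P hN => ?_, lub, kappa_eight, kissing_greatest, tau_eight, fun h => ?_⟩
  · rw [tau_eight]
    exact_mod_cast average_le P hN
  · have h8 := h 8 (Or.inr (Or.inl rfl))
    rw [tau_eight, kappa_eight] at h8
    norm_num at h8

end Pool.Agent.Results.MP_e6e291_co.KappaEight
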